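import Pool.Agent.Mg.F7e0f10.Gae9471

/-! The lock with a short hook: weak inequalities are strict, and the closing error is small. -/

namespace Pool.Agent.MP_7e0f10_lc.R

open Pool.Agent.MP_7e0f10_lc

/-- The ten quantities that stay positive. -/
noncomputable def gg (d : Fin 7 → ℂ) : Fin 10 → ℝ :=
  ![g d 0, g d 1, g d 2, g d 3, g d 4, g d 5, g d 6, g d 7, -(d 6).re - (d 6).im,
    1 / 10 - ((t5 d).re - (t6 d).re)]

/-- Length conditions. -/
def Len (e : ℝ) (d : Fin 7 → ℂ) : Prop :=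
  4 - 400 * e ≤ dot (d 0) (d 0) ∧ dot (d 1) (d 1) ≤ (2 + 170 * e) ^ 2 ∧
    dot (d 6) (d 6) = 1010000 * e ^ 2

/-- The three long links are near their limiting positions. -/
def Nr (a : ℝ) (d : Fin 7 → ℂ) : Prop :=
  ‖d 2 - D 2‖ ≤ a ∧ ‖d 3 - D 3‖ ≤ a ∧ ‖d 4 - D 4‖ ≤ a

lemma continuous_gg (k : Fin 10) : Continuous fun d => gg d k := by
  have h := continuous_g
  fin_cases k <;> simp only [gg, Fin.zero_eta, Fin.mk_one, Fin.reduceFinMk, Matrix.cons_val] <;>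
    first | exact h _ | fun_prop

lemma coord_of_norm {z w : ℂ} {a : ℝ} (h : ‖z - w‖ ≤ a) :
    |z.re - w.re| ≤ a ∧ |z.im - w.im| ≤ a := by
  constructor
  · exact (by simpa using Complex.abs_re_le_norm (z - w) : |z.re - w.re| ≤ ‖z - w‖).trans h
  · exact (by simpa using Complex.abs_im_le_norm (z - w) : |z.im - w.im| ≤ ‖z - w‖).trans h

lemma boot1 {e a b x0 y0 x1 y1 P Q : ℝ} (he : 0 < e) (hb : 0 < b) (g8 : 0 ≤ -a - b)
    (g1 : 0 ≤ a * y0 - b * x0) (g2 : 0 ≤ y0) (g3 : 0 ≤ y1) (g4 : 0 ≤ x1 * Q - y1 * P)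
    (hP : 3.99 ≤ P) (hQ0 : 0.99 ≤ Q) (hQ1 : Q ≤ 1.01) (g9 : x1 - x0 ≤ 1 / 10)
    (l0 : 4 - 400 * e ≤ (x1 - x0 - 2) * (x1 - x0 - 2) + (y1 - y0) * (y1 - y0)) :
    y0 ≤ -x0 ∧ y1 ≤ x1 ∧ x1 - x0 ≤ 106 * e := by
  have h0 : y0 ≤ -x0 := by
    by_contra hc
    push Not at hc
    nlinarith [mul_nonneg g8 g2, mul_pos hb (sub_pos.2 hc)]
  have hx1 : 0 ≤ x1 := by
    by_contra hc
    push Not at hc
    nlinarith [mul_nonneg g3 (by linarith : (0 : ℝ) ≤ P)]
  have h1 : y1 ≤ x1 := by nlinarith [mul_nonneg g3 (sub_nonneg.2 hP), mul_nonneg hx1 (sub_nonneg.2 hQ1)]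
  refine ⟨h0, h1, ?_⟩
  have hA : 0 ≤ x1 - x0 := by linarith
  have h2 : (y1 - y0) * (y1 - y0) ≤ (x1 - x0) * (x1 - x0) := by
    apply mul_self_le_mul_self_of_le_of_neg_le <;> linarith
  nlinarith [mul_nonneg hA (sub_nonneg.2 g9)]

lemma boot2 {e U V x2 y2 x1 m1 m2 : ℝ} (he : 0 < e) (hU0 : 1.9 ≤ U) (hV0 : -0.11 ≤ V)
    (hV1 : V ≤ 0.11) (hm1 : m1 ≤ -0.99) (hm2 : -1.01 ≤ m2) (hm3 : m2 ≤ -0.99) (hm4 : -1.01 ≤ m1)
    (g5 : 0 ≤ U * y2 - V * x2) (g6 : 0 ≤ -x2 * m2 + y2 * m1) (hU : U = 2 + x2 - x1)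
    (hx1 : x1 ≤ 106 * e) (l1 : U * U + V * V ≤ (2 + 170 * e) ^ 2) :
    0 ≤ x2 ∧ x2 ≤ 276 * e ∧ -x2 ≤ y2 ∧ y2 ≤ 2 * x2 := by
  have hx2 : 0 ≤ x2 := by
    by_contra hc
    push Not at hc
    have hy : y2 ≤ 0.9 * x2 := by
      by_contra hy
      push Not at hy
      rcases le_total 0 y2 with h | h
      · nlinarith
      · nlinarith
    nlinarith
  have hU2 : U ≤ 2 + 170 * e := by
    refine (abs_le_of_sq_le_sq' ?_ (by linarith)).2
    nlinarith [mul_self_nonneg V]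
  refine ⟨hx2, by linarith, ?_, ?_⟩
  · by_contra hc
    push Not at hc
    nlinarith
  · by_contra hc
    push Not at hc
    nlinarith

lemma boot3 {e a b U V x1 y1 x2 y2 : ℝ} (he : 0 < e) (he1 : e ≤ 1 / 10 ^ 6) (hb : 0 < b)
    (g8 : 0 ≤ -a - b) (l6 : a * a + b * b = 1010000 * e ^ 2) (hU : U = 2 + x2 - x1)
    (hV : V = y2 - y1) (hx1 : x1 ≤ 106 * e) (hy1 : y1 ≤ x1) (hx2 : 0 ≤ x2) (hx : x2 ≤ 276 * e)
    (hy2 : y2 ≤ 2 * x2) (g7 : 0 ≤ (2 + a - x1) * V - (b - y1) * U) :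
    b ≤ 552 * e ∧ a ≤ -(800 * e) ∧ -(1005 * e) ≤ a := by
  have ha : -(1005 * e) ≤ a := by
    refine (abs_le_of_sq_le_sq' (a := a) (b := 1005 * e) ?_ (by linarith)).1
    nlinarith [mul_self_nonneg b, mul_pos he he]
  have hU0 : 0 < U := by rw [hU]; linarith
  have hw0 : 0 ≤ 2 + a - x1 := by linarith
  have hw1 : 2 + a - x1 ≤ U := by rw [hU]; linarith
  have hb1 : b ≤ 552 * e := by
    rcases le_total V 0 with h | h
    · have : (b - y1) * U ≤ 0 := by nlinarith [mul_nonneg hw0 (neg_nonneg.2 h)]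
      have : b - y1 ≤ 0 := by
        by_contra hc
        push Not at hc
        nlinarith [mul_pos hc hU0]
      linarith
    · have : (b - y1) * U ≤ V * U := by nlinarith [mul_nonneg h (sub_nonneg.2 hw1)]
      have : b - y1 ≤ V := le_of_mul_le_mul_right this hU0
      linarith
  refine ⟨hb1, ?_, ha⟩
  by_contra hc
  push Not at hc
  have h1 : a * a ≤ (800 * e) * (800 * e) := by
    apply mul_self_le_mul_self_of_le_of_neg_le <;> linarith
  have h2 : b * b ≤ (552 * e) * (552 * e) := mul_self_le_mul_self hb.le hb1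
  nlinarith [mul_pos he he]

lemma boot0 {e a b : ℝ} (he : 0 < e) (he1 : e ≤ 1 / 10 ^ 6)
    (l6 : a * a + b * b = 1010000 * e ^ 2) : -2 ≤ a := by
  refine (abs_le_of_sq_le_sq' (a := a) (b := 2) ?_ (by norm_num)).1
  nlinarith [mul_self_nonneg b, mul_pos he he]

lemma boot4 {e a b x0 y0 : ℝ} (he : 0 < e) (k1 : b ≤ 552 * e) (k3 : -(1005 * e) ≤ a)
    (hx : -x0 ≤ 106 * e) (h0 : 0 ≤ y0) (h1 : y0 ≤ -x0) :
    a * x0 + b * y0 ≤ 1010000 * e ^ 2 := by
  have u1 : a * x0 ≤ (1005 * e) * (106 * e) := by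
    have := mul_le_mul (by linarith : -a ≤ 1005 * e) hx (by linarith) (by linarith)
    linarith
  have u2 : b * y0 ≤ (552 * e) * (106 * e) := mul_le_mul k1 (by linarith) h0 (by linarith)
  nlinarith [mul_pos he he]

lemma boot5 {P Q x y : ℝ} (hP : 1 ≤ P) (hQ : 0.9 ≤ Q) (hx : x ≤ 0.5) (hy : y ≤ 0.5) :
    P * x + Q * y ≤ P * P + Q * Q := by
  nlinarith

lemma boot6 {U V m1 m2 x y : ℝ} (U0 : 1.9 ≤ U) (V0 : -0.01 ≤ V) (V1 : V ≤ 0.01)
    (h1 : -1.01 ≤ m1) (h2 : m1 ≤ -0.99) (h4 : m2 ≤ -0.99)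
    (x0 : -0.01 ≤ x) (y0 : -0.01 ≤ y) (y1 : y ≤ 0.01) :
    0 < -U * m2 - -V * m1 ∧ -U * x + -V * y ≤ -U * -U + -V * -V ∧
      m1 * x + m2 * y ≤ m1 * m1 + m2 * m2 := by
  refine ⟨?_, ?_, ?_⟩
  · nlinarith
  · nlinarith [mul_self_nonneg V]
  · nlinarith

lemma boot7 {e U V a b x1 y1 x2 y2 : ℝ} (he : 0 < e) (he1 : e ≤ 1 / 10 ^ 6) (U0 : 1.9 ≤ U)
    (V0 : -0.01 ≤ V) (V1 : V ≤ 0.01) (hU : U = 2 + x2 - x1) (hV : V = y2 - y1)
    (k1 : b ≤ 552 * e) (hb : 0 < b) (k2 : a ≤ -(800 * e)) (k3 : -(1005 * e) ≤ a)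
    (hx1 : x1 ≤ 106 * e) (h0 : 0 ≤ y1) (h1 : y1 ≤ x1) (hx2 : 0 ≤ x2)
    (q0 : -(552 * e) ≤ y2) (q1 : y2 ≤ 552 * e) :
    0 < U * U + V * V ∧ 0 ≤ U * (2 + a - x1) + V * (b - y1) ∧
      U * (2 + a - x1) + V * (b - y1) ≤ U * U + V * V := by
  refine ⟨by nlinarith [mul_self_nonneg V], ?_, ?_⟩
  · have w1 : 1.9 * 1.9 ≤ U * (2 + a - x1) :=
      mul_le_mul U0 (by linarith) (by norm_num) (by linarith)
    have w2 : -1 ≤ V * (b - y1) := by
      rcases le_total 0 V with q | q <;> nlinarith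
    linarith
  · have w1 : U * (a - x2) ≤ -(1.9 * (800 * e)) := by
      have := mul_le_mul U0 (by linarith : 800 * e ≤ x2 - a) (by linarith) (by linarith)
      linarith
    have w2 : V * (b - y2) ≤ 0.01 * (1104 * e) := by
      rcases le_total 0 V with q | q <;> nlinarith
    have w3 : U * (2 + a - x1) + V * (b - y1) - (U * U + V * V) = U * (a - x2) + V * (b - y2) := by
      have q1 : 2 + a - x1 - U = a - x2 := by linarith
      have q2 : b - y1 - V = b - y2 := by linarith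
      rw [← q1, ← q2]; ring
    linarith

/-- Weak inequalities are strict, and the closing error is of order `e`. -/
lemma boot {e : ℝ} {d : Fin 7 → ℂ} (he : 0 < e) (he1 : e ≤ 1 / 10 ^ 6) (h5 : d 5 = 2)
    (hl : Len e d) (hn : Nr (1 / 1000) d) (hf : Free d) (h : ∀ k, 0 ≤ gg d k) :
    (∀ k, 0 < gg d k) ∧ ‖t2 d‖ ≤ 1000 * e := by
  obtain ⟨f1, f2, f3, f4, f5, f6, f7, f8⟩ := hf
  obtain ⟨l0, l1, l6⟩ := hl
  obtain ⟨n2, n3, n4⟩ := hn
  have D2 : (D 2).re = -1 ∧ (D 2).im = -1 := by simp [D]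
  have D3 : (D 3).re = 3 ∧ (D 3).im = 2 := by simp [D]
  have D4 : (D 4).re = -4 ∧ (D 4).im = -1 := by simp [D]
  obtain ⟨n2r, n2i⟩ := coord_of_norm n2
  obtain ⟨n3r, n3i⟩ := coord_of_norm n3
  obtain ⟨n4r, n4i⟩ := coord_of_norm n4
  rw [D2.1, abs_le] at n2r; rw [D2.2, abs_le] at n2i
  rw [D3.1, abs_le] at n3r; rw [D3.2, abs_le] at n3i
  rw [D4.1, abs_le] at n4r; rw [D4.2, abs_le] at n4i
  obtain ⟨n2r, n2r'⟩ := n2r; obtain ⟨n2i, n2i'⟩ := n2i
  obtain ⟨n3r, n3r'⟩ := n3r; obtain ⟨n3i, n3i'⟩ := n3i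
  obtain ⟨n4r, n4r'⟩ := n4r; obtain ⟨n4i, n4i'⟩ := n4i
  clear n2 n3 n4 D2 D3 D4
  have g0 : 0 ≤ cross (d 6) (-d 5) := h 0
  have g1 : 0 ≤ cross (d 6) (t6 d) := h 1
  have g2 : 0 ≤ cross (t6 d) (-d 5) := h 2
  have g3 : 0 ≤ cross (d 5) (t5 d) := h 3
  have g4 : 0 ≤ cross (t5 d) (-d 4) := h 4
  have g5 : 0 ≤ cross (-d 1) (t2 d) := h 5
  have g6 : 0 ≤ cross (t2 d) (d 2) := h 6
  have g7 : 0 ≤ cross (t1 d) (d 1) := h 7
  have g8 : 0 ≤ -(d 6).re - (d 6).im := h 8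
  have g9 : 0 ≤ 1 / 10 - ((t5 d).re - (t6 d).re) := h 9
  have e0 : d 0 = t5 d - t6 d - 2 := by rw [← h5]; unfold t5 t6; ring
  have e1 : d 1 = 2 - t2 d - t5 d := by rw [← h5]; unfold t5 t2; ring
  have e2 : t1 d = 2 + d 6 - t5 d := by rw [← h5]; unfold t5 t1; ring
  have e3 : t2 d = d 2 + d 3 + d 4 + 2 := by rw [← h5]; unfold t2; ring
  have r2 : (t2 d).re = (d 2).re + (d 3).re + (d 4).re + 2 := by rw [e3]; simp
  have i2 : (t2 d).im = (d 2).im + (d 3).im + (d 4).im := by rw [e3]; simp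
  have r1 : (d 1).re = 2 + -(t2 d).re - (t5 d).re := by rw [e1]; simp [sub_eq_add_neg]
  have i1 : (d 1).im = -(t2 d).im - (t5 d).im := by rw [e1]; simp
  have r0 : (d 0).re = (t5 d).re - (t6 d).re - 2 := by rw [e0]; simp
  have i0 : (d 0).im = (t5 d).im - (t6 d).im := by rw [e0]; simp
  have rt : (t1 d).re = 2 + (d 6).re - (t5 d).re := by rw [e2]; simp
  have it : (t1 d).im = (d 6).im - (t5 d).im := by rw [e2]; simp
  have r5 : (d 5).re = 2 := by rw [h5]; simp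
  have i5 : (d 5).im = 0 := by rw [h5]; simp
  clear e0 e1 e2 e3
  have c0 : ∀ z, cross z (-d 5) = 2 * z.im := fun z => by
    simp only [cross, Complex.neg_re, Complex.neg_im, r5, i5]; ring
  have c3 : ∀ z, cross (d 5) z = 2 * z.im := fun z => by simp only [cross, r5, i5]; ring
  have c4 : ∀ z, dot (-d 5) z = -(2 * z.re) := fun z => by
    simp only [dot, Complex.neg_re, Complex.neg_im, r5, i5]; ring
  have c5 : ∀ z, dot (d 5) z = 2 * z.re := fun z => by simp only [dot, r5, i5]; ring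
  have c6 : cross (-d 5) (d 6) = -(2 * (d 6).im) := by
    simp only [cross, Complex.neg_re, Complex.neg_im, r5, i5]; ring
  have r5' : (-d 5).re = -2 := by rw [Complex.neg_re, r5]
  have l6' : (d 6).re * (d 6).re + (d 6).im * (d 6).im = 1010000 * e ^ 2 := l6
  have g0' := g0
  have g2' := g2
  have g3' := g3
  rw [c0] at g0' g2'
  rw [c3] at g3'
  have hb : 0 < (d 6).im := by
    rcases (by linarith only [g0'] : 0 ≤ (d 6).im).lt_or_eq with h' | h'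
    · exact h'
    · exfalso
      have ha := boot0 he he1 l6'
      refine not_off (a := -d 5) ?_ ?_ ?_ ?_ f1
      · rw [c4, r5']; norm_num
      · rw [c6, ← h']; norm_num
      · rw [c4]; linarith only [g8, h']
      · rw [c4, c4, r5']; linarith only [ha]
  have y0 : 0 ≤ (t6 d).im := by linarith only [g2']
  have y1 : 0 ≤ (t5 d).im := by linarith only [g3']
  obtain ⟨a1, a2, a3⟩ := boot1 (e := e) (x0 := (t6 d).re) (y0 := (t6 d).im) (x1 := (t5 d).re)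
    (y1 := (t5 d).im) (P := -(d 4).re) (Q := -(d 4).im) he hb g8 g1 y0 y1 g4
    (by linarith only [n4r']) (by linarith only [n4i']) (by linarith only [n4i])
    (by linarith only [g9]) (by rw [← r0, ← i0]; exact l0)
  have x1 : (t5 d).re ≤ 106 * e := by linarith only [a1, a3, y0]
  have x0 : -(t6 d).re ≤ 106 * e := by linarith only [a2, a3, y1]
  have T0 : -0.003 ≤ (t2 d).re := by linarith only [r2, n2r, n3r, n4r]
  have T1 : (t2 d).re ≤ 0.003 := by linarith only [r2, n2r', n3r', n4r']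
  have T2 : -0.003 ≤ (t2 d).im := by linarith only [i2, n2i, n3i, n4i]
  have T3 : (t2 d).im ≤ 0.003 := by linarith only [i2, n2i', n3i', n4i']
  have U0 : 1.9 ≤ (d 1).re := by linarith only [r1, T1, x1, he1]
  have V0 : -0.01 ≤ (d 1).im := by linarith only [i1, T3, x1, a2, he1]
  have V1 : (d 1).im ≤ 0.01 := by linarith only [i1, T2, y1]
  have M0 : -1.01 ≤ (d 2).re := by linarith only [n2r]
  have M1 : (d 2).re ≤ -0.99 := by linarith only [n2r']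
  have M2 : -1.01 ≤ (d 2).im := by linarith only [n2i]
  have M3 : (d 2).im ≤ -0.99 := by linarith only [n2i']
  obtain ⟨b1, b2, b3, b4⟩ := boot2 (e := e) (U := (d 1).re) (V := (d 1).im) (x2 := -(t2 d).re)
    (y2 := -(t2 d).im) (x1 := (t5 d).re) (m1 := (d 2).re) (m2 := (d 2).im) he U0
    (by linarith only [V0]) (by linarith only [V1]) M1 M2 M3 M0
    (by simp only [cross, Complex.neg_re, Complex.neg_im] at g5; linarith only [g5])
    (by simp only [cross] at g6; linarith only [g6]) r1 x1 l1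
  obtain ⟨k1, k2, k3⟩ := boot3 (U := (d 1).re) (V := (d 1).im) (x1 := (t5 d).re)
    (y1 := (t5 d).im) (x2 := -(t2 d).re) (y2 := -(t2 d).im) he he1 hb g8 l6' r1 i1 x1
    a2 b1 b2 b4 (by rw [← rt, ← it]; exact g7)
  have s0 : 0 < cross (d 6) (-d 5) := by rw [c0]; linarith only [hb]
  obtain ⟨s1, s2⟩ := wedge_strict (a := d 6) (b := -d 5) (τ := t6 d) s0 g1 g2
    (by rw [l6]; exact boot4 he k1 k3 x0 y0 a1)
    (by rw [c4, c4, r5']; linarith only [x0, he1]) f2 f3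
  obtain ⟨s3, s4⟩ := wedge_strict (a := d 5) (b := -d 4) (τ := t5 d)
    (by rw [c3, Complex.neg_im]; linarith only [n4i']) g3 g4
    (by rw [c5, c5, r5]; linarith only [x1, he1])
    (boot5 (P := -(d 4).re) (Q := -(d 4).im) (by linarith only [n4r']) (by linarith only [n4i'])
      (by linarith only [x1, he1]) (by linarith only [x1, a2, he1])) f4 f5
  obtain ⟨j1, j2, j3⟩ := boot6 (x := (t2 d).re) (y := (t2 d).im) U0 V0 V1 M0 M1 M3
    (by linarith only [T0]) (by linarith only [T2]) (by linarith only [T3])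
  obtain ⟨s5, s6⟩ := wedge_strict (a := -d 1) (b := d 2) (τ := t2 d) j1 g5 g6 j2 j3 f6 f7
  have q0 : -(552 * e) ≤ -(t2 d).im := by linarith only [b2, b3, he]
  have q1 : -(t2 d).im ≤ 552 * e := by linarith only [b2, b4]
  have s7 : 0 < cross (t1 d) (d 1) := by
    rcases g7.lt_or_eq with h' | h'
    · exact h'
    · exfalso
      obtain ⟨w1, w2, w3⟩ := boot7 he he1 U0 V0 V1 r1 i1 k1 hb k2 k3 x1 y1 a2 b1 q0 q1
      rw [← rt, ← it] at w2 w3
      refine not_off (a := d 1) w1 ?_ w2 w3 f8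
      unfold cross at h' ⊢; linarith only [h']
  have s8 : 0 < -(d 6).re - (d 6).im := by linarith only [k1, k2, he]
  have s9 : 0 < 1 / 10 - ((t5 d).re - (t6 d).re) := by linarith only [a3, he1]
  refine ⟨fun k => ?_, ?_⟩
  · fin_cases k
    exacts [s0, s1, s2, s3, s4, s5, s6, s7, s8, s9]
  · refine (Complex.norm_le_abs_re_add_abs_im _).trans ?_
    have p1 : |(t2 d).re| ≤ 276 * e := abs_le.2 ⟨by linarith only [b2], by linarith only [b1, he]⟩
    have p2 : |(t2 d).im| ≤ 552 * e := abs_le.2 ⟨by linarith only [q1], by linarith only [q0]⟩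
    linarith only [p1, p2, he]

end Pool.Agent.MP_7e0f10_lc.R
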