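import Pool.Agent.MP_7e0f10_lc.Defs

/-! The elliptic distance and the parameter `r` of a configuration. -/

namespace Pool.Agent.MP_7e0f10_lc

variable {n : ℕ}

/-- Elliptic distance `|va| + |vb| - |ab|` from joint `v` to link number `i`. -/
noncomputable def ellDist (p : Fin (n + 1) → ℂ) (v : Fin (n + 1)) (i : Fin n) : ℝ :=
  dist (p v) (p i.castSucc) + dist (p v) (p i.succ) - linkLength p i

/-- `r ≤ R`: every link length is at most `R` times every elliptic distance from a joint to a link
that does not have it as an end. -/
def RatioLe (p : Fin (n + 1) → ℂ) (R : ℝ) : Prop :=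
  ∀ (j : Fin n) (v : Fin (n + 1)) (i : Fin n), v ≠ i.castSucc → v ≠ i.succ →
    linkLength p j ≤ R * ellDist p v i

end Pool.Agent.MP_7e0f10_lc
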